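import Pool.Agent.Work.MP_dcf6a6_tv.Interface

open CategoryTheory AlgebraicGeometry

namespace Pool.TVar.helper33

noncomputable section

theorem homog_unique (F G : MvPolynomial (Fin 2) ℂ) (d : ℕ) (hF : F ∈ lineGr d)
    (hG : G ∈ lineGr d)
    (h : ∀ t, MvPolynomial.eval ![t, 1] F = MvPolynomial.eval ![t, 1] G) : F = G := by
  have hF' : F.IsHomogeneous d := hF
  have hG' : G.IsHomogeneous d := hG
  have key : ∀ H : MvPolynomial (Fin 2) ℂ, ∀ t : ℂ,
      (MvPolynomial.aeval ![(Polynomial.X : Polynomial ℂ), 1] H).eval t =
        MvPolynomial.eval ![t, 1] H := by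
    intro H t
    induction H using MvPolynomial.induction_on with
    | C a => simp
    | add p q hp hq => simp only [map_add, Polynomial.eval_add, hp, hq]
    | mul_X p n hp =>
      simp only [map_mul, Polynomial.eval_mul, hp, MvPolynomial.aeval_X, MvPolynomial.eval_X]
      congr 1
      fin_cases n <;> simp
  have e : MvPolynomial.aeval ![(Polynomial.X : Polynomial ℂ), 1] F =
      MvPolynomial.aeval ![(Polynomial.X : Polynomial ℂ), 1] G := by
    apply Polynomial.funext
    intro t
    rw [key, key, h]
  exact (Polynomial.homogenize_eq_of_isHomogeneous hF' e).symm.trans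
    (Polynomial.homogenize_eq_of_isHomogeneous hG' rfl)

theorem stmt_HOMG : Stmt_HOMG := by
  refine ⟨?_, homog_unique⟩
  intro f d hf
  refine ⟨?_, ?_, ?_⟩
  · exact Polynomial.isHomogeneous_homogenize f
  · intro t
    exact Polynomial.eval₂_homogenize_of_eq_one hf (RingHom.id ℂ) ![t, 1] (by simp)
  · intro t
    unfold Polynomial.homogenize
    rw [map_sum]
    rw [Finset.sum_eq_single (d, 0)]
    · rw [MvPolynomial.eval_monomial]
      simp [Finsupp.prod_fintype]
    · intro b hb hne
      rw [MvPolynomial.eval_monomial]
      have hb2 : b.2 ≠ 0 := by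
        intro h0
        apply hne
        rw [Finset.HasAntidiagonal.mem_antidiagonal] at hb
        ext
        · simp; omega
        · simpa using h0
      simp [Finsupp.prod_fintype, hb2]
    · intro h
      exact absurd (Finset.HasAntidiagonal.mem_antidiagonal.2 (by simp)) h

end

end Pool.TVar.helper33
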