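import Pool.Agent.Work.MP_dcf6a6_tv_helper33.HOMG

open CategoryTheory AlgebraicGeometry

namespace Pool.TVar.helper33

noncomputable section

open MvPolynomial in
/-- Substituting homogeneous polynomials of degrees `N * wt v` in a weighted homogeneous one. -/
theorem aeval_mem_lineGr {V : Type} (wt : V → ℕ) (N n : ℕ)
    (F : V → MvPolynomial (Fin 2) ℂ) (hF : ∀ v, F v ∈ lineGr (N * wt v))
    (P : MvPolynomial V ℂ) (hP : P.IsWeightedHomogeneous wt n) :
    aeval F P ∈ lineGr (N * n) := by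
  rw [aeval_def, eval₂_eq]
  refine Submodule.sum_mem _ fun d hd => ?_
  have hd' : Finsupp.weight wt d = n := hP (mem_support_iff.1 hd)
  show (_ : MvPolynomial (Fin 2) ℂ).IsHomogeneous (N * n)
  rw [← zero_add (N * n)]
  apply IsHomogeneous.mul
  · exact isHomogeneous_C _ _
  · have h1 : N * n = ∑ v ∈ d.support, (N * wt v) * d v := by
      rw [← hd', Finsupp.weight_apply, Finsupp.sum, Finset.mul_sum]
      refine Finset.sum_congr rfl fun v _ => ?_
      rw [smul_eq_mul]; ring
    rw [h1]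
    refine IsHomogeneous.prod _ _ _ fun v _ => ?_
    have : (F v).IsHomogeneous (N * wt v) := hF v
    exact this.pow _

open MvPolynomial in
theorem pi_monomial_mem {V : Type} {A : Type} [CommRing A] [Algebra ℂ A]
    (𝒜 : ℕ → Submodule ℂ A) [GradedAlgebra 𝒜] (wt : V → ℕ) (π : MvPolynomial V ℂ →ₐ[ℂ] A)
    (hπ : ∀ v, π (X v) ∈ 𝒜 (wt v)) (d : V →₀ ℕ) (c : ℂ) :
    π (monomial d c) ∈ 𝒜 (Finsupp.weight wt d) := by
  rw [monomial_eq, map_mul]
  have h0 : π (C c) = algebraMap ℂ A c := by
    rw [← algebraMap_eq]; exact π.commutes c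
  rw [h0, ← Algebra.smul_def]
  refine Submodule.smul_mem _ _ ?_
  rw [Finsupp.prod, map_prod, Finsupp.weight_apply, Finsupp.sum]
  refine SetLike.prod_mem_graded _ _ _ fun v _ => ?_
  rw [map_pow, smul_eq_mul, ← smul_eq_mul]
  exact SetLike.pow_mem_graded _ (hπ v)

open MvPolynomial in
theorem phi_graded {V : Type} {A : Type} [CommRing A] [Algebra ℂ A]
    (𝒜 : ℕ → Submodule ℂ A) [GradedAlgebra 𝒜] (wt : V → ℕ) (π : MvPolynomial V ℂ →ₐ[ℂ] A)
    (hs : Function.Surjective π)
    (hπ : ∀ v, π (X v) ∈ 𝒜 (wt v)) (N : ℕ)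
    (φ : A →ₐ[ℂ] MvPolynomial (Fin 2) ℂ) (hφ : ∀ v, φ (π (X v)) ∈ lineGr (N * wt v))
    (n : ℕ) (a : A) (ha : a ∈ 𝒜 n) : φ a ∈ lineGr (N * n) := by
  have key : ∀ P : MvPolynomial V ℂ,
      φ ((DirectSum.decompose 𝒜 (π P) n : 𝒜 n) : A) ∈ lineGr (N * n) := by
    intro P
    induction P using MvPolynomial.induction_on' with
    | monomial d c =>
      by_cases hd : Finsupp.weight wt d = n
      · subst hd
        rw [DirectSum.decompose_of_mem_same _ (pi_monomial_mem 𝒜 wt π hπ d c)]
        have h1 : φ (π (monomial d c)) = aeval (fun v => φ (π (X v))) (monomial d c) := by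
          have : (φ.comp π) = aeval (fun v => φ (π (X v))) := by
            apply MvPolynomial.algHom_ext
            intro i
            simp
          rw [← this]; rfl
        rw [h1]
        exact aeval_mem_lineGr wt N _ _ hφ _ (isWeightedHomogeneous_monomial _ _ _ rfl)
      · rw [DirectSum.decompose_of_mem_ne _ (pi_monomial_mem 𝒜 wt π hπ d c) hd, map_zero]
        exact Submodule.zero_mem _
    | add p q hp hq =>
      rw [map_add, DirectSum.decompose_add, DirectSum.add_apply, Submodule.coe_add, map_add]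
      exact Submodule.add_mem _ hp hq
  obtain ⟨P, rfl⟩ := hs a
  have := key P
  rwa [DirectSum.decompose_of_mem_same _ ha] at this

/-- the leading form is in a prime containing `X 1` and the homogenisation -/
theorem X0_mem (f : Polynomial ℂ) (d : ℕ) (hd : f.coeff d ≠ 0)
    (q : Ideal (MvPolynomial (Fin 2) ℂ)) (hq : q.IsPrime)
    (h1 : MvPolynomial.X 1 ∈ q) (hf : f.homogenize d ∈ q) : MvPolynomial.X 0 ∈ q := by
  have h2 : f.homogenize d - MvPolynomial.C (f.coeff d) * MvPolynomial.X 0 ^ d ∈ q := by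
    have e : f.homogenize d = ∑ kl ∈ Finset.HasAntidiagonal.antidiagonal d,
        MvPolynomial.C (f.coeff kl.1) * (MvPolynomial.X 0 ^ kl.1 * MvPolynomial.X 1 ^ kl.2) := by
      unfold Polynomial.homogenize
      refine Finset.sum_congr rfl fun kl _ => ?_
      rw [MvPolynomial.monomial_eq]
      simp [Finsupp.prod_fintype]
    rw [e, ← Finset.sum_erase_add _ _
      (Finset.HasAntidiagonal.mem_antidiagonal.2 (show (d, 0).1 + (d, 0).2 = d by simp))]
    simp only [pow_zero, mul_one, add_sub_cancel_right]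
    refine Ideal.sum_mem _ fun b hb => ?_
    rw [Finset.mem_erase, Finset.HasAntidiagonal.mem_antidiagonal] at hb
    have hb2 : b.2 ≠ 0 := by
      intro h0
      apply hb.1
      ext
      · simp; omega
      · simpa using h0
    refine Ideal.mul_mem_left _ _ (Ideal.mul_mem_left _ _ ?_)
    exact Ideal.pow_mem_of_mem _ h1 _ (Nat.pos_of_ne_zero hb2)
  have h3 : MvPolynomial.C (f.coeff d) * MvPolynomial.X 0 ^ d ∈ q := by
    have := q.sub_mem hf h2
    simpa using this
  have h4 : (MvPolynomial.X 0 : MvPolynomial (Fin 2) ℂ) ^ d ∈ q := by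
    have := q.mul_mem_left (MvPolynomial.C (f.coeff d)⁻¹) h3
    rwa [← mul_assoc, ← map_mul, inv_mul_cancel₀ hd, map_one, one_mul] at this
  exact hq.mem_of_pow_mem _ h4

theorem coprime_homog (f g : Polynomial ℂ) (d e : ℕ) (hfd : f.natDegree = d)
    (hgd : g.natDegree = e) (hf : f ≠ 0)
    (h : IsCoprime f g) (q : Ideal (MvPolynomial (Fin 2) ℂ)) (hq : q.IsPrime)
    (hX : MvPolynomial.X 0 ∉ q ∨ MvPolynomial.X 1 ∉ q)
    (hfq : f.homogenize d ∈ q) : g.homogenize e ∉ q := by
  intro hgq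
  obtain ⟨a, b, hab⟩ := h
  have h1 : (MvPolynomial.X 1 : MvPolynomial (Fin 2) ℂ) ∈ q := by
    set M := max (a.natDegree + d) (b.natDegree + e) with hM
    obtain ⟨M1, hM1⟩ : ∃ M1, M = M1 + d := ⟨M - d, by omega⟩
    obtain ⟨M2, hM2⟩ : ∃ M2, M = M2 + e := ⟨M - e, by omega⟩
    have e1 : (a * f).homogenize M ∈ q := by
      rw [hM1, Polynomial.homogenize_mul _ _ (by omega) hfd.le]
      exact q.mul_mem_left _ hfq
    have e2 : (b * g).homogenize M ∈ q := by
      rw [hM2, Polynomial.homogenize_mul _ _ (by omega) hgd.le]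
      exact q.mul_mem_left _ hgq
    have e3 := q.add_mem e1 e2
    rw [← Polynomial.homogenize_add, hab, Polynomial.homogenize_one] at e3
    exact hq.mem_of_pow_mem _ e3
  have h0 : (MvPolynomial.X 0 : MvPolynomial (Fin 2) ℂ) ∈ q := by
    refine X0_mem f d ?_ q hq h1 hfq
    rw [← hfd]
    simpa using hf
  rcases hX with h | h
  · exact h h0
  · exact h h1

theorem stmt_PHI (hH : Stmt_HOMG) : Stmt_PHI := by
  intro J K I B _ _ _ _ _ _ D A _ _ 𝒜 _ pr y N τ hN hy hτ hrel hcop
  classical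
  set F : J ⊕ K → MvPolynomial (Fin 2) ℂ := fun v => (τ v).homogenize (N * D.wt v) with hF
  have hFmem : ∀ v, F v ∈ lineGr (N * D.wt v) := fun v => (hH.1 (τ v) _ (hτ v).1.le).1
  have hF1 : ∀ v t, MvPolynomial.eval ![t, 1] (F v) = (τ v).eval t :=
    fun v => (hH.1 (τ v) _ (hτ v).1.le).2.1
  have hF0 : ∀ v t, MvPolynomial.eval ![t, 0] (F v) = y v * t ^ (N * D.wt v) := by
    intro v t
    rw [(hH.1 (τ v) _ (hτ v).1.le).2.2 t, ← (hτ v).2, Polynomial.leadingCoeff, (hτ v).1]
  have hP : ∀ b, MvPolynomial.aeval (fun k => F (Sum.inr k)) (D.P b) ∈ lineGr (N * D.p b) :=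
    fun b => aeval_mem_lineGr D.u N (D.p b) _ (fun k => hFmem (Sum.inr k)) _ (D.homog b)
  have hPe : ∀ b t, MvPolynomial.eval ![t, 1]
      (MvPolynomial.aeval (fun k => F (Sum.inr k)) (D.P b)) =
        (MvPolynomial.aeval (fun k => τ (Sum.inr k)) (D.P b)).eval t := by
    intro b t
    induction D.P b using MvPolynomial.induction_on with
    | C a => simp
    | add p q hp hq => simp only [map_add, Polynomial.eval_add, hp, hq]
    | mul_X p n hp =>
      simp only [map_mul, Polynomial.eval_mul, hp, MvPolynomial.aeval_X, hF1]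
  have hkill : ∀ a, MvPolynomial.aeval F (D.rel a) = 0 := by
    intro a
    unfold Data.rel
    rw [map_sub, sub_eq_zero, map_prod, map_prod]
    apply hH.2 _ _ (N * ∑ j with D.ja j = a, D.w j)
    · rw [Finset.mul_sum]
      refine MvPolynomial.IsHomogeneous.prod _ _ _ fun j _ => ?_
      rw [MvPolynomial.aeval_X]
      exact hFmem (Sum.inl j)
    · rw [D.balanced a, Finset.mul_sum]
      refine MvPolynomial.IsHomogeneous.prod _ _ _ fun b _ => ?_
      rw [map_pow, MvPolynomial.aeval_rename]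
      have h1 : (MvPolynomial.aeval (F ∘ Sum.inr) (D.P b)).IsHomogeneous (N * D.p b) := hP b
      have h2 := h1.pow (D.m b)
      have h3 : N * D.p b * D.m b = N * (D.m b * D.p b) := by ring
      rwa [h3] at h2
    · intro t
      rw [map_prod, map_prod]
      have h1 := congrArg (fun f : Polynomial ℂ => f.eval t) (hrel a)
      simp only [Polynomial.eval_prod, Polynomial.eval_pow] at h1
      simp only [MvPolynomial.aeval_X, map_pow, MvPolynomial.aeval_rename, hF1]
      rw [h1]
      refine Finset.prod_congr rfl fun b _ => ?_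
      rw [← hPe b t]; rfl
  have hker : RingHom.ker pr.π.toRingHom ≤
      RingHom.ker (MvPolynomial.aeval F : MvPolynomial (J ⊕ K) ℂ →ₐ[ℂ] _).toRingHom := by
    have h1 : RingHom.ker pr.π.toRingHom = Ideal.span (Set.range D.rel) := pr.ker
    rw [h1, Ideal.span_le]
    rintro _ ⟨a, rfl⟩
    exact hkill a
  set φ := AlgHom.liftOfSurjective pr.π pr.surj (MvPolynomial.aeval F) hker with hφ
  have hφX : ∀ v, φ (pr.π (MvPolynomial.X v)) = F v := by
    intro v
    rw [hφ, AlgHom.liftOfSurjective_apply, MvPolynomial.aeval_X]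
  refine ⟨φ, ?_, ?_, ?_, ?_⟩
  · intro n a ha
    refine phi_graded 𝒜 D.wt pr.π pr.surj pr.graded N φ (fun v => ?_) n a ha
    rw [hφX]; exact hFmem v
  · intro v t
    rw [hφX]; exact hF1 v t
  · intro v t
    rw [hφX]; exact hF0 v t
  · intro q hq hX v v' hvv' h1
    rw [hφX] at h1 ⊢
    refine coprime_homog (τ v) (τ v') _ _ (hτ v).1 (hτ v').1 ?_ (hcop v v' hvv') q hq hX h1
    intro h0
    apply hy v
    rw [← (hτ v).2, h0, Polynomial.leadingCoeff_zero]

end

end Pool.TVar.helper33
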